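import Pool.Agent.W300.FT.Stm

set_option autoImplicit false

namespace Pool.Agent.W272.FT

open Pool.Agent.W300.FT

noncomputable section

lemma psi0 {V : Type} (G : SimpleGraph V) (ω : V × K → Bool) (v : V) (c : ℕ × ℕ) (j : ℕ) :
    Psi G ω v (c, j, 0) = ω (v, (c, j, 0)) := by
  unfold Psi
  simp

lemma psi1 {V : Type} (G : SimpleGraph V) (ω : V × K → Bool) (v : V) (c : ℕ × ℕ) (j : ℕ) :
    Psi G ω v (c, j, 1) = true ↔ et G ω c j v := by
  unfold Psi
  simp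

lemma psi_ne {V : Type} (G : SimpleGraph V) (ω : V × K → Bool) (v : V) (c : ℕ × ℕ) (j i : ℕ)
    (hi : 2 ≤ i) (hj : j ≠ 1) : Psi G ω v (c, j, i) = ω (v, (c, j, i)) := by
  unfold Psi
  have h0 : i ≠ 0 := by omega
  have h1 : i ≠ 1 := by omega
  simp [h0, h1, hj]

lemma ch_unique {V : Type} (G : SimpleGraph V) (ω : V × K → Bool) (c : ℕ × ℕ) (γ₁ γ₂ : ℕ → V)
    (h₁ : Ch G ω c γ₁) (h₂ : Ch G ω c γ₂) (h : γ₁ 1 = γ₂ 1) :
    ∀ j, j ≤ c.1 + 2 → γ₁ j = γ₂ j := by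
  intro j
  induction j with
  | zero =>
    intro _
    have a := h₁ 0 (by omega)
    have b := h₂ 0 (by omega)
    obtain ⟨a1, a2, a3, a4, a5⟩ := a
    obtain ⟨b1, b2, b3, b4, b5⟩ := b
    simp only [Nat.zero_add] at a1 a3 a5 b1 b3 b5
    rw [← h] at b1
    exact a5.unique ⟨a1.symm, a2⟩ ⟨b1.symm, b2⟩
  | succ j ih =>
    intro hj
    rcases Nat.eq_zero_or_pos j with h0 | h0
    · subst h0
      simpa using h
    · have e := ih (by omega)
      obtain ⟨a1, a2, a3, a4, a5⟩ := h₁ j (by omega)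
      obtain ⟨b1, b2, b3, b4, b5⟩ := h₂ j (by omega)
      rw [← e] at b1
      exact a4.unique ⟨a1, a3⟩ ⟨b1, b3⟩

lemma fm_congr {V : Type} (ω : V × K → Bool) (c : ℕ × ℕ) (i : ℕ) (γ₁ γ₂ : ℕ → V)
    (h : ∀ j, j ≤ c.1 + 2 → γ₁ j = γ₂ j) : fm ω c i γ₁ = fm ω c i γ₂ := by
  unfold fm
  rw [h 0 (by omega), h (c.1 + 2) le_rfl]
  congr 1
  apply Finset.sum_congr rfl
  intro j hj
  rw [Finset.mem_Ioo] at hj
  rw [h j (by omega)]

lemma bt_one (x : ZMod 2) (b : Bool) (h : b = true ↔ x = 1) : bt b = x := by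
  unfold bt
  have hall : ∀ y : ZMod 2, y = 0 ∨ y = 1 := by decide
  have hx : x = 0 ∨ x = 1 := hall x
  rcases hx with hx | hx
  · have : b = false := by
      by_contra hb
      have := h.1 (by simpa using hb)
      rw [hx] at this
      exact absurd this (by decide)
    rw [this, hx]
    simp
  · have : b = true := h.2 hx
    rw [this, hx]
    simp

theorem rel : S_REL := by
  intro V G ω c γ hM i hi
  have hC : Ch G ω c γ := by
    intro j hj
    obtain ⟨a1, a2, a3, a4, a5⟩ := hM j hj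
    rw [psi0] at a2 a3
    rw [psi1] at a4 a5
    exact ⟨a1, a2, a3, a4, a5⟩
  rw [psi_ne G ω (γ 0) c 0 i hi (by omega), psi_ne G ω (γ (c.1 + 2)) c (c.1 + 2) i hi (by omega)]
  have hI : Finset.Ioo 0 (c.1 + 2) = insert 1 (Finset.Ioo 1 (c.1 + 2)) := by
    ext j
    simp only [Finset.mem_Ioo, Finset.mem_insert]
    omega
  rw [hI, Finset.sum_insert (by simp)]
  have hS : ∑ j ∈ Finset.Ioo 1 (c.1 + 2), bt (Psi G ω (γ j) (c, j, i)) =
      ∑ j ∈ Finset.Ioo 1 (c.1 + 2), bt (ω (γ j, (c, j, i))) := by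
    apply Finset.sum_congr rfl
    intro j hj
    rw [Finset.mem_Ioo] at hj
    rw [psi_ne G ω (γ j) c j i hi (by omega)]
  rw [hS]
  have h1 : bt (Psi G ω (γ 1) (c, 1, i)) = fm ω c i γ := by
    apply bt_one
    have h0 : i ≠ 0 := by omega
    have h1 : i ≠ 1 := by omega
    have hex : ∃ γ' : ℕ → V, γ' 1 = γ 1 ∧ Ch G ω c γ' := ⟨γ, rfl, hC⟩
    unfold Psi
    simp only [h0, h1, hex, and_self, if_true, if_false, decide_eq_true_eq]
    constructor
    · rintro ⟨γ', e, hc, hf⟩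
      rw [← hf]
      exact fm_congr ω c i γ γ' (ch_unique G ω c γ γ' hC hc e.symm)
    · intro hf
      exact ⟨γ, rfl, hC, hf⟩
  rw [h1]
  unfold fm
  rw [add_assoc]
  have : ∀ x : ZMod 2, x + x = 0 := by decide
  rw [this, add_zero]

end

end Pool.Agent.W272.FT
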